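import Pool.Agent.Lib.MP_28cddd_co.Assembly

/-!
Alternating chains of stackable and strongly non-stackable graphs of every length.
-/

namespace Pool.Agent.Results.MP_28cddd_co.AlternatingChains

open Pool.Agent.Lib.MP_28cddd_co

/-- For every `r ≥ 3` there are connected graphs `G 1 ≤ G 2 ≤ ... ≤ G r` on one finite vertex set
such that `G i` is stackable for every odd `i` and strongly non-stackable for every even `i`. -/
theorem result (r : ℕ) (_hr : 3 ≤ r) :
    ∃ (V : Type) (_ : Fintype V) (_ : DecidableEq V) (G : ℕ → SimpleGraph V),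
      (∀ i, 1 ≤ i → i ≤ r → (G i).Connected) ∧
      (∀ i, 1 ≤ i → i < r → G i ≤ G (i + 1)) ∧
      (∀ i, 1 ≤ i → i ≤ r → Odd i → Stackable (G i)) ∧
      (∀ i, 1 ≤ i → i ≤ r → Even i → StronglyNonStackable (G i)) :=
  ⟨VV r, inferInstance, inferInstance, stage r, fun i _ _ => stage_connected r i,
    fun i _ _ => stage_mono r i, fun i _ _ h => stage_odd r i h,
    fun i h1 h2 h => stage_even r i h1 h2 h⟩

end Pool.Agent.Results.MP_28cddd_co.AlternatingChains
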